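import Pool.Agent.FF24.Basic

set_option autoImplicit false
set_option linter.unusedSectionVars false

/-!
# FF95/LocI: interior points of the tiles

`K_interior`: at a point of the interior of a tile no facet of the tile is active. `R_interior`: the star of an interior
point is trivial. `K_closure`: a tile is the closure of its interior.
-/

open Set Metric
open scoped RealInnerProductSpace

namespace Pool.FF95

open Pool.FF24

variable {E : Type*} [NormedAddCommGroup E] [InnerProductSpace ℝ E] {P : HPoly E} (g : Glue P)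

theorem sign_mul {τ : ℝ × E} (h : τ.1 = 1 ∨ τ.1 = -1) : τ.1 * τ.1 = 1 := by
  rcases h with h | h <;> rw [h] <;> norm_num

theorem crd_shift {τ : ℝ × E} (hs : τ.1 * τ.1 = 1) (p u : E) (s : ℝ) :
    crd τ (p + s • (τ.1 • u)) = crd τ p + s • u := by
  have h : τ.1 * s * τ.1 = s := by linear_combination s * hs
  unfold crd
  rw [add_sub_right_comm, smul_add, smul_smul, smul_smul, h]

/-- no active facet: the star is trivial -/
theorem eq_of_act {p : E} {τ σ : g.Lab} (h : P.act (crd τ.1 p) = ∅) (hR : g.R p τ σ) : σ = τ := by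
  rcases hR.2.cases_head with h1 | ⟨c, h1, -⟩
  · exact h1.symm
  · obtain ⟨u, hu, h2, -⟩ := h1
    have : u ∈ P.act (crd τ.1 p) := ⟨hu, h2.2⟩
    rw [h] at this
    exact absurd this (notMem_empty u)

theorem K_interior {p : E} {τ : g.Lab} (hp : p ∈ interior (g.K τ)) :
    P.act (crd τ.1 p) = ∅ := by
  rw [Set.eq_empty_iff_forall_notMem]
  rintro u ⟨hu, hu2⟩
  obtain ⟨ε, hε, hball⟩ := Metric.mem_nhds_iff.1 (mem_interior_iff_mem_nhds.1 hp)
  have hs := sign_mul (Orb.sign g τ.2)
  have hs' : |τ.1.1| = 1 := by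
    rcases Orb.sign g τ.2 with h | h <;> rw [h] <;> norm_num
  have hnu := P.unit u hu
  have hmem : p + (ε / 2) • (τ.1.1 • u) ∈ g.K τ := by
    apply hball
    rw [mem_ball, dist_eq_norm, add_sub_cancel_left, norm_smul, norm_smul, hnu, Real.norm_eq_abs,
      Real.norm_eq_abs, hs', abs_of_pos (by positivity : 0 < ε / 2)]
    linarith
  have h1 : ⟪u, crd τ.1 (p + (ε / 2) • (τ.1.1 • u))⟫ ≤ P.h u := hmem u hu
  have h2 : crd τ.1 (p + (ε / 2) • (τ.1.1 • u)) = crd τ.1 p + (ε / 2) • u :=
    crd_shift hs p u (ε / 2)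
  rw [h2, inner_add_right, hu2, inner_smul_right, real_inner_self_eq_norm_sq, hnu] at h1
  linarith

theorem R_interior {p : E} {τ σ : g.Lab} (hp : p ∈ interior (g.K τ)) (h : g.R p τ σ) : σ = τ :=
  eq_of_act g (K_interior g hp) h

theorem continuous_crd (τ : ℝ × E) : Continuous (crd τ) := by
  unfold crd
  fun_prop

theorem K_eq (τ : g.Lab) : g.K τ = ⋂ u ∈ P.N, {p | ⟪u, crd τ.1 p⟫ ≤ P.h u} := by
  ext p
  simp only [mem_iInter]
  rfl

theorem K_closed (τ : g.Lab) : IsClosed (g.K τ) := by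
  rw [K_eq]
  refine isClosed_biInter fun u _ => ?_
  exact isClosed_le (continuous_const.inner (continuous_crd τ.1)) continuous_const

theorem K_convex (τ : g.Lab) : Convex ℝ (g.K τ) := by
  intro p hp q hq a b ha hb hab u hu
  have h1 : ⟪u, crd τ.1 p⟫ ≤ P.h u := hp u hu
  have h2 : ⟪u, crd τ.1 q⟫ ≤ P.h u := hq u hu
  have h3 : crd τ.1 (a • p + b • q) = a • crd τ.1 p + b • crd τ.1 q := by
    unfold crd
    have h4 : a • p + b • q - τ.1.2 = a • (p - τ.1.2) + b • (q - τ.1.2) := by
      rw [smul_sub, smul_sub]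
      have : τ.1.2 = a • τ.1.2 + b • τ.1.2 := by rw [← add_smul, hab, one_smul]
      nth_rewrite 1 [this]
      abel
    rw [h4, smul_add, smul_comm, smul_comm (τ.1.1) b]
  show ⟪u, crd τ.1 (a • p + b • q)⟫ ≤ P.h u
  rw [h3, inner_add_right, inner_smul_right, inner_smul_right]
  have h5 := mul_le_mul_of_nonneg_left h1 ha
  have h6 := mul_le_mul_of_nonneg_left h2 hb
  have h7 : a * P.h u + b * P.h u = P.h u := by rw [← add_mul, hab, one_mul]
  linarith

theorem K_interior_nonempty (τ : g.Lab) : (interior (g.K τ)).Nonempty := by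
  obtain ⟨z, hz⟩ := P.int
  refine ⟨X τ.1 z, ?_⟩
  rw [mem_interior]
  refine ⟨⋂ u ∈ P.N, {p | ⟪u, crd τ.1 p⟫ < P.h u}, ?_, ?_, ?_⟩
  · intro p hp u hu
    exact (mem_iInter₂.1 hp u hu : ⟪u, crd τ.1 p⟫ < P.h u).le
  · refine isOpen_biInter_finset fun u _ => ?_
    exact isOpen_lt (continuous_const.inner (continuous_crd τ.1)) continuous_const
  · rw [mem_iInter₂]
    intro u hu
    show ⟪u, crd τ.1 (X τ.1 z)⟫ < P.h u
    rw [crd_X (Orb.sign g τ.2)]
    exact hz u hu

theorem K_closure (τ : g.Lab) : (interior (g.K τ)).Nonempty ∧ closure (interior (g.K τ)) = g.K τ := by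
  refine ⟨K_interior_nonempty g τ, ?_⟩
  rw [(K_convex g τ).closure_interior_eq_closure_of_nonempty_interior (K_interior_nonempty g τ),
    (K_closed g τ).closure_eq]

end Pool.FF95
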