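import Mathlib

set_option autoImplicit false

/-!
# FF95/Count: going around a ridge of a tiling (necessity)

`arcs_le`: pairwise disjoint open arcs of the circle have total length at most `2 π`.
`first_return`: tiles around a ridge; the first return is after the angle `2 π`.
`count`: the flags repeat after 3 steps, or after 4 steps with an even number of inversions.
-/

namespace Pool.FF95

open Real Finset MeasureTheory

/-- pairwise disjoint open arcs have total length at most `2 π` -/
theorem arcs_le {m : ℕ} {φ β : ℕ → ℝ} (hβ : ∀ r < m, 0 < β r ∧ β r < π)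
    (hd : ∀ r < m, ∀ s < m, r ≠ s → ∀ t, φ r < t → t < φ r + β r → ∀ n : ℤ,
      ¬ (φ s < t + n * (2 * π) ∧ t + n * (2 * π) < φ s + β s)) :
    ∑ r ∈ range m, β r ≤ 2 * π := by
  have hT : (0 : ℝ) < 2 * π := by positivity
  have : Fact (0 < 2 * π) := ⟨hT⟩
  -- it is enough to prove it for slightly shorter arcs
  have key : ∀ δ : ℝ, 0 < δ → δ < 1 → ∑ r ∈ range m, (1 - δ) * β r ≤ 2 * π := by
    intro δ hδ hδ1
    set A : ℕ → Set (AddCircle (2 * π)) := fun r =>
      Metric.closedBall ((φ r + β r / 2 : ℝ) : AddCircle (2 * π)) ((1 - δ) * β r / 2) with hA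
    have hvol : ∀ r < m, volume (A r) = ENNReal.ofReal ((1 - δ) * β r) := by
      intro r hr
      rw [hA]
      simp only
      rw [AddCircle.volume_closedBall]
      congr 1
      rw [min_eq_right]
      · ring
      · have h1 := (hβ r hr).1
        have h2 := (hβ r hr).2
        have : (1 - δ) * β r ≤ β r := by nlinarith
        linarith [pi_pos]
    have hdis : ∀ r < m, ∀ s < m, r ≠ s → Disjoint (A r) (A s) := by
      intro r hr s hs hrs
      rw [Set.disjoint_left]
      intro y hy1 hy2
      induction y using QuotientAddGroup.induction_on with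
      | H t =>
        have e1 : t ∈ ((↑) : ℝ → AddCircle (2 * π)) ⁻¹' A r := hy1
        have e2 : t ∈ ((↑) : ℝ → AddCircle (2 * π)) ⁻¹' A s := hy2
        rw [hA] at e1 e2
        simp only at e1 e2
        rw [AddCircle.coe_real_preimage_closedBall_eq_iUnion] at e1 e2
        obtain ⟨z, hz⟩ := Set.mem_iUnion.1 e1
        obtain ⟨z', hz'⟩ := Set.mem_iUnion.1 e2
        rw [Metric.mem_closedBall, Real.dist_eq, abs_le, zsmul_eq_mul] at hz hz'
        have hr1 := (hβ r hr).1
        have hs1 := (hβ s hs).1
        have b1 : (1 - δ) * β r < β r := by nlinarith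
        have b2 : (1 - δ) * β s < β s := by nlinarith
        refine hd r hr s hs hrs (t - z * (2 * π)) (by linarith) (by linarith) (z - z') ⟨?_, ?_⟩
        · push_cast
          linarith
        · push_cast
          linarith
    have hsum : ∑ r ∈ range m, volume (A r) ≤ volume (Set.univ : Set (AddCircle (2 * π))) := by
      rw [← measure_biUnion_finset]
      · exact measure_mono (Set.subset_univ _)
      · intro r hr s hs hrs
        exact hdis r (Finset.mem_range.1 hr) s (Finset.mem_range.1 hs) hrs
      · intro r _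
        exact Metric.isClosed_closedBall.measurableSet
    rw [AddCircle.measure_univ, Finset.sum_congr rfl fun r hr => hvol r (Finset.mem_range.1 hr),
      ← ENNReal.ofReal_sum_of_nonneg, ENNReal.ofReal_le_ofReal_iff hT.le] at hsum
    · exact hsum
    · intro r hr
      have := (hβ r (Finset.mem_range.1 hr)).1
      exact mul_nonneg (by linarith) this.le
  by_contra hc
  have hc' := not_le.1 hc
  set S' := ∑ r ∈ range m, β r with hS
  have hpos : 0 < S' := lt_trans hT hc'
  -- choose `δ` with `(1 - δ) Σ > 2 π`
  have h1 := key ((S' - 2 * π) / (2 * S')) (by apply div_pos <;> linarith)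
    (by rw [div_lt_one (by linarith)]; linarith)
  rw [← Finset.mul_sum, ← hS, sub_mul, div_mul_eq_mul_div, one_mul] at h1
  have h2 : (S' - 2 * π) * S' / (2 * S') = (S' - 2 * π) / 2 := by
    field_simp
  rw [h2] at h1
  linarith

/-- Tiles around a ridge: the tile `r` occupies the angles between `θ (r + 1)` and `θ r`. The first return is after
the angle `2 π`. -/
theorem first_return {Λ : Type*} {L : ℕ → Λ} {θ : ℕ → ℝ} {δ : ℝ} (hδ : 0 < δ)
    (h1 : ∀ r, θ r - π < θ (r + 1)) (h2 : ∀ r, θ (r + 1) ≤ θ r - δ)
    (hd : ∀ r s t, θ (r + 1) < t → t < θ r → ∀ n : ℤ, θ (s + 1) < t + n * (2 * π) →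
      t + n * (2 * π) < θ s → L r = L s)
    (hrot : ∀ r s, L r = L s → ∃ n : ℤ, θ r = θ s + n * (2 * π)) :
    ∃ k, 0 < k ∧ L k = L 0 ∧ θ k = θ 0 - 2 * π := by
  classical
  have hp : (0 : ℝ) < 2 * π := by positivity
  have hmono : ∀ r, θ r ≤ θ 0 - r * δ := by
    intro r
    induction r with
    | zero => simp
    | succ n ih =>
      have := h2 n
      push_cast
      linarith
  have hanti : ∀ r s, r ≤ s → θ s ≤ θ r := by
    intro r s hrs
    induction s, hrs using Nat.le_induction with
    | base => exact le_rfl
    | succ n _ ih =>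
      have := h2 n
      linarith
  have hex : ∃ r, θ r ≤ θ 0 - 2 * π := by
    obtain ⟨n, hn⟩ := exists_nat_gt (2 * π / δ)
    refine ⟨n, ?_⟩
    have h3 := hmono n
    rw [div_lt_iff₀ hδ] at hn
    linarith
  set k := Nat.find hex with hk
  have hk1 : θ k ≤ θ 0 - 2 * π := Nat.find_spec hex
  have hk0 : 0 < k := by
    rcases Nat.eq_zero_or_pos k with h | h
    · rw [h] at hk1
      linarith
    · exact h
  obtain ⟨r, hr⟩ : ∃ r, k = r + 1 := ⟨k - 1, by omega⟩
  have hr1 : θ 0 - 2 * π < θ r := not_le.1 (Nat.find_min hex (by omega))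
  have hkeq : θ k = θ 0 - 2 * π := by
    by_contra hne
    have hlt : θ (r + 1) < θ 0 - 2 * π := by
      rw [← hr]
      exact lt_of_le_of_ne hk1 hne
    -- a common argument of the tiles `r` and `0`
    have h01 : θ 1 < θ 0 := by have h := h2 0; rw [zero_add] at h; linarith
    set t := max (θ (r + 1)) (θ 1 - 2 * π) with ht
    have ht1 : t < θ 0 - 2 * π := max_lt hlt (by linarith)
    obtain ⟨t', h3, h4⟩ := exists_between ht1
    have h5 : L r = L 0 := by
      refine hd r 0 t' (lt_of_le_of_lt (le_max_left _ _) h3) (by linarith) 1 ?_ ?_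
      · have := lt_of_le_of_lt (le_max_right (θ (r + 1)) (θ 1 - 2 * π)) h3
        rw [zero_add]
        push_cast
        linarith
      · push_cast
        linarith
    obtain ⟨n, hn⟩ := hrot r 0 h5
    have h6 : θ r ≤ θ 0 := hanti 0 r (by omega)
    have h7 : (n : ℝ) ≤ 0 := by
      by_contra h8
      have := mul_pos (not_le.1 h8) hp
      linarith
    have h8 : (-1 : ℝ) < n := by
      by_contra h9
      have h10 : (n : ℝ) * (2 * π) ≤ -1 * (2 * π) :=
        mul_le_mul_of_nonneg_right (not_lt.1 h9) hp.le
      linarith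
    have h9 : n = 0 := by
      have h10 : n ≤ 0 := by exact_mod_cast h7
      have h11 : -1 < n := by exact_mod_cast h8
      omega
    rw [h9] at hn
    have h10 : r = 0 := by
      by_contra hr0
      have := hanti 1 r (by omega)
      push_cast at hn
      linarith
    rw [h10] at hlt
    have := h1 0
    linarith [pi_pos]
  refine ⟨k, hk0, ?_, hkeq⟩
  have h01 : θ 1 < θ 0 := by have h := h2 0; rw [zero_add] at h; linarith
  have h02 : θ (k + 1) < θ k := by have := h2 k; linarith
  obtain ⟨t', h3, h4⟩ := exists_between (show max (θ (k + 1)) (θ 1 - 2 * π) < θ 0 - 2 * π from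
    max_lt (by linarith) (by linarith))
  refine hd k 0 t' (lt_of_le_of_lt (le_max_left _ _) h3) (by linarith) 1 ?_ ?_
  · have := lt_of_le_of_lt (le_max_right (θ (k + 1)) (θ 1 - 2 * π)) h3
    rw [zero_add]
    push_cast
    linarith
  · push_cast
    linarith

/-- THE COUNT. `F r` = the flag of the tile `r` around the ridge, `e r` its sign, `ε` the sign of the step, `B` the
exterior angle. -/
theorem count {Φ : Type*} [Finite Φ] {F : ℕ → Φ} {e : ℕ → ℤˣ} {ε : Φ → ℤˣ} {θ : ℕ → ℝ} {B : Φ → ℝ}
    (hB : ∀ r, 0 < B (F r) ∧ B (F r) < π) (hθ : ∀ r, θ (r + 1) = θ r - (π - B (F r)))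
    (he : ∀ r, e (r + 1) = e r * ε (F r)) (hF : ∀ r s, F r = F s ↔ F (r + 1) = F (s + 1))
    (hd : ∀ r s t, θ (r + 1) < t → t < θ r → ∀ n : ℤ, θ (s + 1) < t + n * (2 * π) →
      t + n * (2 * π) < θ s → F r = F s ∧ e r = e s)
    (hrot : ∀ r s, F r = F s → e r = e s → ∃ n : ℤ, θ r = θ s + n * (2 * π))
    (harc : ∀ m, (∀ r < m, ∀ s < m, F r = F s → r = s) → ∑ r ∈ range m, B (F r) ≤ 2 * π) :
    F 3 = F 0 ∨ (F 4 = F 0 ∧ ε (F 0) * ε (F 1) * ε (F 2) * ε (F 3) = 1) := by
  classical
  have hp : (0 : ℝ) < 2 * π := by positivity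
  -- a lower bound for the dihedral angles
  obtain ⟨δ, hδ, hδB⟩ : ∃ δ > 0, ∀ r, δ ≤ π - B (F r) := by
    have hfin : (Set.range F).Finite := Set.toFinite _
    have hne : (hfin.toFinset).Nonempty := ⟨F 0, by simp⟩
    obtain ⟨b, hb, hbmin⟩ := Finset.exists_max_image hfin.toFinset B hne
    have hb' : b ∈ Set.range F := by simpa using hb
    obtain ⟨r₀, rfl⟩ := hb'
    refine ⟨π - B (F r₀), by linarith [(hB r₀).2], fun r => ?_⟩
    have := hbmin (F r) (by simp)
    linarith
  obtain ⟨k, hk0, hkL, hkθ⟩ := first_return (L := fun r => (F r, e r)) hδ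
    (fun r => by rw [hθ r]; linarith [(hB r).1]) (fun r => by rw [hθ r]; linarith [hδB r])
    (fun r s t h1 h2 n h3 h4 => by
      obtain ⟨h5, h6⟩ := hd r s t h1 h2 n h3 h4
      exact Prod.ext h5 h6)
    (fun r s h => hrot r s (congrArg Prod.fst h) (congrArg Prod.snd h))
  have hkF : F k = F 0 := congrArg Prod.fst hkL
  have hke : e k = e 0 := congrArg Prod.snd hkL
  -- the period of the flags
  have hex : ∃ m, 0 < m ∧ F m = F 0 := ⟨k, hk0, hkF⟩
  set m := Nat.find hex with hm
  obtain ⟨hm0, hmF⟩ := Nat.find_spec hex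
  rw [← hm] at hm0 hmF
  have hmin : ∀ r, 0 < r → r < m → F r ≠ F 0 := fun r h1 h2 h3 => Nat.find_min hex h2 ⟨h1, h3⟩
  have hper : ∀ r, F (m + r) = F r := by
    intro r
    induction r with
    | zero => simpa using hmF
    | succ n ih => exact (hF (m + n) n).1 ih
  have hsub : ∀ s r, F (r + s) = F s → F r = F 0 := by
    intro s
    induction s with
    | zero => intro r h; simpa using h
    | succ n ih => intro r h; exact ih r ((hF (r + n) n).2 h)
  have hinj : ∀ r < m, ∀ s < m, F r = F s → r = s := by
    have aux : ∀ r s, r < m → s < m → r ≤ s → F r = F s → r = s := by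
      intro r s hr hs hrs h
      by_contra hne
      obtain ⟨d, rfl⟩ := Nat.exists_eq_add_of_le hrs
      have h1 : F d = F 0 := hsub r d (by rw [add_comm]; exact h.symm)
      exact hmin d (by omega) (by omega) h1
    intro r hr s hs h
    rcases le_total r s with h1 | h1
    · exact aux r s hr hs h1 h
    · exact (aux s r hs hr h1 h.symm).symm
  have hsum := harc m hinj
  -- the angles
  have hang : ∀ r, θ r = θ 0 - (r * π - ∑ i ∈ range r, B (F i)) := by
    intro r
    induction r with
    | zero => simp
    | succ n ih =>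
      rw [hθ, ih, Finset.sum_range_succ]
      push_cast
      ring
  have hdrop : ∀ r s, r ≤ s → θ s ≤ θ r - (s - r : ℕ) * δ := by
    intro r s hrs
    induction s, hrs using Nat.le_induction with
    | base => simp
    | succ n hn ih =>
      have h1 := hδB n
      have h2 := hθ n
      rw [Nat.succ_sub hn]
      push_cast
      linarith
  have hlt : ∀ r s, r < s → θ s < θ r := by
    intro r s hrs
    have h1 := hdrop r s hrs.le
    have h2 : (0 : ℝ) < ((s - r : ℕ) : ℝ) := by exact_mod_cast Nat.sub_pos_of_lt hrs
    have := mul_pos h2 hδ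
    linarith
  -- the sign after one period
  have hesign : ∀ r, e (m + r) = e m * e 0 * e r := by
    intro r
    induction r with
    | zero =>
      rw [add_zero, mul_assoc, Int.units_mul_self, mul_one]
    | succ n ih =>
      rw [← add_assoc, he, ih, he n, hper n]
      simp only [mul_assoc]
  have hprod : ∀ r, e r = e 0 * ∏ i ∈ range r, ε (F i) := by
    intro r
    induction r with
    | zero => simp
    | succ n ih => rw [he, ih, Finset.prod_range_succ, mul_assoc]
  -- a return of flag and sign at `q ≤ k` is at the angle `2 π`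
  have hret : ∀ q, 0 < q → q ≤ k → F q = F 0 → e q = e 0 → θ q = θ 0 - 2 * π := by
    intro q hq0 hqk h1 h2
    obtain ⟨n, hn⟩ := hrot q 0 h1 h2
    have h3 := hlt 0 q hq0
    have h4 : θ k ≤ θ q := by
      rcases hqk.eq_or_lt with h | h
      · rw [h]
      · exact (hlt q k h).le
    have h5 : (n : ℝ) < 0 := by
      by_contra h6
      have := mul_nonneg (not_lt.1 h6) hp.le
      linarith
    have h6 : (-1 : ℝ) ≤ n := by
      by_contra h7
      have := mul_lt_mul_of_pos_right (not_le.1 h7) hp
      linarith
    have h7 : n = -1 := by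
      have a1 : n < 0 := by exact_mod_cast h5
      have a2 : -1 ≤ n := by exact_mod_cast h6
      omega
    rw [hn, h7]
    push_cast
    ring
  have hmk : m ≤ k := Nat.find_min' hex ⟨hk0, hkF⟩
  rcases Int.units_eq_one_or (e m * e 0) with hpar | hpar
  · -- even
    have h1 : e m = e 0 := by
      have := congrArg (· * e 0) hpar
      simp only [mul_assoc, Int.units_mul_self, mul_one, one_mul] at this
      exact this
    have h2 := hret m hm0 hmk hmF h1
    have h3 := hang m
    have h4 : ∑ i ∈ range m, B (F i) = m * π - 2 * π := by linarith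
    have h5 : (m : ℝ) ≤ 4 := by
      by_contra h6
      have := mul_lt_mul_of_pos_right (not_le.1 h6) pi_pos
      linarith
    have h6 : m ≤ 4 := by exact_mod_cast h5
    have h7 : 0 < ∑ i ∈ range m, B (F i) :=
      Finset.sum_pos (fun i _ => (hB i).1) ⟨0, Finset.mem_range.2 hm0⟩
    have h8 : (2 : ℝ) < m := by
      by_contra h9
      have := mul_le_mul_of_nonneg_right (not_lt.1 h9) pi_pos.le
      linarith
    have h9 : 2 < m := by exact_mod_cast h8
    have h10 : m = 3 ∨ m = 4 := by omega
    rcases h10 with h10 | h10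
    · left
      rw [← h10]
      exact hmF
    · right
      refine ⟨by rw [← h10]; exact hmF, ?_⟩
      have h11 := hprod 4
      rw [← h10, h1, h10] at h11
      have h12 : (1 : ℤˣ) = ∏ i ∈ range 4, ε (F i) := by
        have := congrArg (e 0 * ·) h11
        simp only [← mul_assoc, Int.units_mul_self, one_mul] at this
        exact this
      rw [h12]
      simp [Finset.prod_range_succ]
  · -- odd
    have h1 : e m ≠ e 0 := by
      intro h2
      rw [h2, Int.units_mul_self] at hpar
      exact absurd hpar (by decide)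
    have h2m : m + m ≤ k := by
      by_contra hlt2
      -- `k` is a multiple of `m`
      obtain ⟨d, hd1⟩ := Nat.exists_eq_add_of_le hmk
      have h3 : F d = F 0 := by
        rw [← hper d, ← hd1]
        exact hkF
      rcases Nat.eq_zero_or_pos d with h4 | h4
      · subst h4
        rw [add_zero] at hd1
        rw [hd1] at hke
        exact h1 hke
      · exact hmin d h4 (by omega) h3
    have h3 : F (m + m) = F 0 := by rw [hper m]; exact hmF
    have h4 : e (m + m) = e 0 := by
      rw [hesign m, mul_assoc, mul_comm (e 0) (e m), ← mul_assoc, Int.units_mul_self, one_mul]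
    have h5 := hret (m + m) (by omega) h2m h3 h4
    have h6 := hang (m + m)
    have h7 : ∑ i ∈ range (m + m), B (F i) = 2 * ∑ i ∈ range m, B (F i) := by
      rw [Finset.sum_range_add]
      simp only [hper]
      ring
    rw [h7] at h6
    push_cast at h6
    have h8 : ∑ i ∈ range m, B (F i) = m * π - π := by linarith
    have h9 : (m : ℝ) ≤ 3 := by
      by_contra h10
      have := mul_lt_mul_of_pos_right (not_le.1 h10) pi_pos
      linarith
    have h10 : m ≤ 3 := by exact_mod_cast h9
    have h11 : 0 < ∑ i ∈ range m, B (F i) :=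
      Finset.sum_pos (fun i _ => (hB i).1) ⟨0, Finset.mem_range.2 hm0⟩
    have h12 : (1 : ℝ) < m := by
      by_contra h13
      have := mul_le_mul_of_nonneg_right (not_lt.1 h13) pi_pos.le
      linarith
    have h13 : 1 < m := by exact_mod_cast h12
    have h14 : m = 3 ∨ m = 2 := by omega
    rcases h14 with h14 | h14
    · left
      rw [← h14]
      exact hmF
    · right
      rw [h14] at h3 h4
      refine ⟨h3, ?_⟩
      have h15 := hprod 4
      have h4' : e 4 = e 0 := h4
      rw [h4'] at h15
      have h16 : (1 : ℤˣ) = ∏ i ∈ range 4, ε (F i) := by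
        have := congrArg (e 0 * ·) h15
        simp only [← mul_assoc, Int.units_mul_self, one_mul] at this
        exact this
      rw [h16]
      simp [Finset.prod_range_succ]

end Pool.FF95
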