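import Mathlib

set_option autoImplicit false

/-!
# FF95/Wedge: sectors around the origin of the plane

`wf t x y = x cos t + y sin t` is the inner product of `(x, y)` with the unit vector of argument `t`. For a decreasing
sequence `θ 0 > θ 1 > … > θ k = θ 0 - 2 π` with steps less than `π` the sectors
`{wf (θ i) ≤ 0 ≤ wf (θ (i + 1))}`, `i < k`, cover the plane and meet only along common rays.
-/

namespace Pool.FF95

open Real

/-- inner product with the unit vector of argument `t` -/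
noncomputable def wf (t x y : ℝ) : ℝ := x * cos t + y * sin t

theorem exists_polar (x y : ℝ) : ∃ r ψ : ℝ, 0 ≤ r ∧ x = r * sin ψ ∧ y = -(r * cos ψ) ∧
    (r = 0 → x = 0 ∧ y = 0) := by
  refine ⟨‖(⟨-y, x⟩ : ℂ)‖, Complex.arg ⟨-y, x⟩, norm_nonneg _, ?_, ?_, ?_⟩
  · have := Complex.norm_mul_sin_arg (⟨-y, x⟩ : ℂ)
    simpa using this.symm
  · have := Complex.norm_mul_cos_arg (⟨-y, x⟩ : ℂ)
    simp only at this
    rw [this]
    ring
  · intro h
    rw [norm_eq_zero] at h
    have h1 := congrArg Complex.re h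
    have h2 := congrArg Complex.im h
    simp at h1 h2
    exact ⟨h2, h1⟩

theorem wf_polar (t r ψ : ℝ) : wf t (r * sin ψ) (-(r * cos ψ)) = r * sin (ψ - t) := by
  unfold wf
  rw [sin_sub]
  ring

/-- strict monotonicity of the angles -/
theorem lt_of_step {θ : ℕ → ℝ} {k : ℕ} (h2 : ∀ i < k, θ (i + 1) < θ i) :
    ∀ i j : ℕ, i < j → j ≤ k → θ j < θ i := by
  intro i j hij hjk
  induction j, hij using Nat.le_induction with
  | base => exact h2 i (by omega)
  | succ n hn ih => exact (h2 n (by omega)).trans (ih (by omega))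

theorem le_of_step {θ : ℕ → ℝ} {k : ℕ} (h2 : ∀ i < k, θ (i + 1) < θ i) :
    ∀ i j : ℕ, i ≤ j → j ≤ k → θ j ≤ θ i := by
  intro i j hij hjk
  rcases hij.eq_or_lt with rfl | h
  · exact le_rfl
  · exact (lt_of_step h2 i j h hjk).le

/-- the sectors cover the plane -/
theorem cover {θ : ℕ → ℝ} {k : ℕ} (h1 : ∀ i < k, θ i - π < θ (i + 1))
    (hk : θ k = θ 0 - 2 * π) (x y : ℝ) :
    ∃ i < k, wf (θ i) x y ≤ 0 ∧ 0 ≤ wf (θ (i + 1)) x y := by
  classical
  obtain ⟨r, ψ₀, hr, hx, hy, -⟩ := exists_polar x y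
  -- move the argument to the interval
  obtain ⟨ψ, hψ1, hψ2, hψx, hψy⟩ : ∃ ψ : ℝ, θ k < ψ ∧ ψ ≤ θ 0 ∧ x = r * sin ψ ∧
      y = -(r * cos ψ) := by
    have hp : (0 : ℝ) < 2 * π := by positivity
    have hm := toIocMod_mem_Ioc hp (θ k) ψ₀
    refine ⟨toIocMod hp (θ k) ψ₀, hm.1, ?_, ?_, ?_⟩
    · have := hm.2
      linarith
    · have e : toIocMod hp (θ k) ψ₀ = ψ₀ - toIocDiv hp (θ k) ψ₀ * (2 * π) := by
        rw [toIocMod, zsmul_eq_mul]
      rw [e, sin_sub_int_mul_two_pi]
      exact hx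
    · have e : toIocMod hp (θ k) ψ₀ = ψ₀ - toIocDiv hp (θ k) ψ₀ * (2 * π) := by
        rw [toIocMod, zsmul_eq_mul]
      rw [e, cos_sub_int_mul_two_pi]
      exact hy
  have hk0 : 0 < k := by
    rcases Nat.eq_zero_or_pos k with h | h
    · subst h
      linarith
    · exact h
  have hex : ∃ i, θ (i + 1) < ψ := ⟨k - 1, by rw [Nat.sub_add_cancel hk0]; exact hψ1⟩
  set i := Nat.find hex with hi
  have hi1 : θ (i + 1) < ψ := Nat.find_spec hex
  have hik : i < k := by
    have : i ≤ k - 1 := Nat.find_min' hex (by rw [Nat.sub_add_cancel hk0]; exact hψ1)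
    omega
  have hi2 : ψ ≤ θ i := by
    rcases Nat.eq_zero_or_pos i with h | h
    · rw [h]
      exact hψ2
    · have := Nat.find_min hex (show i - 1 < i by omega)
      rw [Nat.sub_add_cancel h] at this
      exact not_lt.1 this
  refine ⟨i, hik, ?_, ?_⟩
  · rw [hψx, hψy, wf_polar]
    have : sin (ψ - θ i) ≤ 0 := sin_nonpos_of_nonpos_of_neg_pi_le (by linarith)
      (by have := h1 i hik; linarith)
    nlinarith
  · rw [hψx, hψy, wf_polar]
    have : 0 ≤ sin (ψ - θ (i + 1)) := sin_nonneg_of_nonneg_of_le_pi (by linarith)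
      (by have := h1 i hik; linarith)
    positivity

/-- a vector of a sector has an argument in the interval -/
theorem arg_of_mem {a b ψ r : ℝ} (h1 : a - π < b) (h2 : b < a) (hr : 0 < r)
    (ha : r * sin (ψ - a) ≤ 0) (hb : 0 ≤ r * sin (ψ - b)) :
    ∃ n : ℤ, b ≤ ψ + n * (2 * π) ∧ ψ + n * (2 * π) ≤ a := by
  have ha' : sin (ψ - a) ≤ 0 := by
    by_contra hc
    exact absurd ha (not_le.2 (mul_pos hr (not_le.1 hc)))
  have hb' : 0 ≤ sin (ψ - b) := by
    by_contra hc
    exact absurd hb (not_le.2 (mul_neg_of_pos_of_neg hr (not_le.1 hc)))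
  have hp : (0 : ℝ) < 2 * π := by positivity
  -- the argument `s` relative to `b` in `[0, 2 π)`
  have hm := toIcoMod_mem_Ico hp b ψ
  have e : toIcoMod hp b ψ = ψ - toIcoDiv hp b ψ * (2 * π) := by
    rw [toIcoMod, zsmul_eq_mul]
  set n := toIcoDiv hp b ψ with hn
  rw [e] at hm
  obtain ⟨hm1, hm2⟩ := hm
  have hs : sin (ψ - n * (2 * π) - b) = sin (ψ - b) := by
    rw [show ψ - n * (2 * π) - b = (ψ - b) - n * (2 * π) by ring, sin_sub_int_mul_two_pi]
  have hs2 : sin (ψ - n * (2 * π) - a) = sin (ψ - a) := by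
    rw [show ψ - n * (2 * π) - a = (ψ - a) - n * (2 * π) by ring, sin_sub_int_mul_two_pi]
  refine ⟨-n, ?_, ?_⟩
  · push_cast
    linarith
  · push_cast
    by_contra hc
    have hc' : a < ψ - n * (2 * π) := by
      have := not_le.1 hc
      linarith
    -- then `0 < s - a`, and `sin (s - a) ≤ 0` forces `s - a ≥ π`
    have h3 : π ≤ ψ - n * (2 * π) - a := by
      by_contra h4
      have h5 := sin_pos_of_pos_of_lt_pi (by linarith : 0 < ψ - n * (2 * π) - a) (not_le.1 h4)
      rw [hs2] at h5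
      linarith
    -- so `s - b ≥ π + (a - b) > π` and `s - b < 2 π`, hence `sin (s - b) < 0`
    have h6 : sin (ψ - n * (2 * π) - b) < 0 := by
      have h7 : sin (ψ - n * (2 * π) - b - 2 * π) < 0 :=
        sin_neg_of_neg_of_neg_pi_lt (by linarith) (by linarith)
      rwa [sin_sub_two_pi] at h7
    rw [hs] at h6
    linarith

/-- two sectors meet only along common rays -/
theorem adj {θ : ℕ → ℝ} {k : ℕ} (h1 : ∀ i < k, θ i - π < θ (i + 1)) (h2 : ∀ i < k, θ (i + 1) < θ i)
    (hk : θ k = θ 0 - 2 * π) {x y : ℝ} (hxy : ¬ (x = 0 ∧ y = 0)) {i j : ℕ} (hij : i < j) (hj : j < k)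
    (hi1 : wf (θ i) x y ≤ 0) (hi2 : 0 ≤ wf (θ (i + 1)) x y)
    (hj1 : wf (θ j) x y ≤ 0) (hj2 : 0 ≤ wf (θ (j + 1)) x y) :
    (j = i + 1 ∧ wf (θ j) x y = 0) ∨ (i = 0 ∧ j + 1 = k ∧ wf (θ 0) x y = 0) := by
  obtain ⟨r, ψ, hr, hx, hy, hr0⟩ := exists_polar x y
  have hrp : 0 < r := lt_of_le_of_ne hr fun h => hxy (hr0 h.symm)
  subst hx
  subst hy
  rw [wf_polar] at hi1 hi2 hj1 hj2
  obtain ⟨n, hn1, hn2⟩ := arg_of_mem (h1 i (by omega)) (h2 i (by omega)) hrp hi1 hi2
  obtain ⟨n', hm1, hm2⟩ := arg_of_mem (h1 j hj) (h2 j hj) hrp hj1 hj2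
  have e1 : θ j ≤ θ (i + 1) := le_of_step h2 _ _ (by omega) (by omega)
  have e2 : θ i ≤ θ 0 := le_of_step h2 _ _ (by omega) (by omega)
  have e3 : θ k ≤ θ (j + 1) := le_of_step h2 _ _ (by omega) (by omega)
  have hp : (0 : ℝ) < 2 * π := by positivity
  have h3 : ψ + n' * (2 * π) ≤ ψ + n * (2 * π) := by linarith
  have h4 : (n' : ℝ) ≤ n := by
    have : (n' : ℝ) * (2 * π) ≤ n * (2 * π) := by linarith
    exact le_of_mul_le_mul_right this hp
  have h5 : (n : ℝ) ≤ n' + 1 := by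
    have : (n : ℝ) * (2 * π) ≤ (n' + 1) * (2 * π) := by linarith
    exact le_of_mul_le_mul_right this hp
  have h4' : n' ≤ n := by exact_mod_cast h4
  have h5' : n ≤ n' + 1 := by exact_mod_cast h5
  rcases eq_or_lt_of_le h4' with h6 | h6
  · left
    subst h6
    have e4 : θ j = θ (i + 1) := by linarith
    have e5 : j = i + 1 := by
      by_contra hne
      have := lt_of_step h2 (i + 1) j (by omega) (by omega)
      linarith
    refine ⟨e5, ?_⟩
    rw [wf_polar]
    have e6 : ψ - θ j = -(n' * (2 * π)) := by linarith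
    rw [e6, sin_neg, show (n' : ℝ) * (2 * π) = 0 + n' * (2 * π) by ring, sin_add_int_mul_two_pi,
      sin_zero]
    simp
  · right
    have h7 : n = n' + 1 := by omega
    have h8 : (n : ℝ) = n' + 1 := by exact_mod_cast h7
    have e4 : ψ + n * (2 * π) = θ 0 := by
      have : ψ + n * (2 * π) = ψ + n' * (2 * π) + 2 * π := by rw [h8]; ring
      linarith
    have e5 : θ i = θ 0 := by linarith
    have e6 : θ (j + 1) = θ k := by
      have : ψ + n * (2 * π) = ψ + n' * (2 * π) + 2 * π := by rw [h8]; ring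
      linarith
    have e7 : i = 0 := by
      by_contra hne
      have := lt_of_step h2 0 i (by omega) (by omega)
      linarith
    have e8 : j + 1 = k := by
      by_contra hne
      have := lt_of_step h2 (j + 1) k (by omega) le_rfl
      linarith
    refine ⟨e7, e8, ?_⟩
    rw [wf_polar]
    have e9 : ψ - θ 0 = -(n * (2 * π)) := by linarith
    rw [e9, sin_neg, show (n : ℝ) * (2 * π) = 0 + n * (2 * π) by ring, sin_add_int_mul_two_pi,
      sin_zero]
    simp

end Pool.FF95
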